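import Pool.Agent.helper78.HFN.Spec

/-! Row `hfn:STP` (MP_3221a1_ag): one step of the restriction to an irreducible curve. -/

set_option autoImplicit false

open Polynomial Module

namespace Pool.Agent.HFN

noncomputable section

open Classical in
theorem STP_lam (Z : Finset (ℂ × ℂ)) (κ : ℂ × ℂ → ℕ) (hκ : ∀ z, κ z ≤ 2) (E : AA) :
    lam Z κ E = 2 * (Z.filter fun z => ev z E = 0 ∧ κ z = 2).card + (Z.filter fun z => ev z E = 0 ∧ κ z = 1).card := by
  unfold lam
  have h : ∀ z ∈ Z.filter (fun z => ev z E = 0), κ z = 2 * (if κ z = 2 then 1 else 0) + (if κ z = 1 then 1 else 0) := by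
    intro z _
    have h1 := hκ z
    by_cases h2 : κ z = 2
    · simp [h2]
    · by_cases h3 : κ z = 1
      · simp [h3]
      · simp [h2, h3]
        omega
  rw [Finset.sum_congr rfl h, Finset.sum_add_distrib, ← Finset.mul_sum, ← Finset.card_filter, ← Finset.card_filter,
    Finset.filter_filter, Finset.filter_filter]

theorem STP (hSEC : SEC_stmt) (hRES : RES_stmt) : STP_stmt := by
  classical
  intro Z κ hκ E hE i j hi hj
  have hE0 : E ≠ 0 := hE.ne_zero
  have hS := hSEC E hE i j (V i j ⊓ (JJ Z κ).restrictScalars ℂ : Submodule ℂ AA) inf_le_left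
    (Z.filter fun z => ev z E = 0 ∧ κ z = 2) (Z.filter fun z => ev z E = 0 ∧ κ z = 1)
    (by
      rw [Finset.disjoint_left]
      intro z h1 h2
      have h3 := (Finset.mem_filter.1 h1).2.2
      have h4 := (Finset.mem_filter.1 h2).2.2
      omega)
    (fun z hz => (Finset.mem_filter.1 hz).2.1) (fun z hz => (Finset.mem_filter.1 hz).2.1)
    (by
      rintro f ⟨-, hf⟩
      have hf' : f ∈ JJ Z κ := hf
      rw [mem_JJ] at hf'
      constructor
      · intro z hz
        obtain ⟨h1, -, h2⟩ := Finset.mem_filter.1 hz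
        exact (hf' z h1).2 (by omega)
      · intro z hz
        obtain ⟨h1, -, h2⟩ := Finset.mem_filter.1 hz
        exact (hf' z h1).1 (by omega))
  rw [← STP_lam Z κ hκ E] at hS
  have hle : finrank ℂ ((V i j ⊓ (JJ Z κ).restrictScalars ℂ) ⊓ (Ideal.span {E}).restrictScalars ℂ : Submodule ℂ AA) ≤
      hd (JJ Z (res κ E)) (i - dX E) (j - dY E) := by
    unfold hd
    have h1 : ((V i j ⊓ (JJ Z κ).restrictScalars ℂ) ⊓ (Ideal.span {E}).restrictScalars ℂ : Submodule ℂ AA) ≤
        Submodule.map (LinearMap.mulLeft ℂ E) (V (i - dX E) (j - dY E) ⊓ (JJ Z (res κ E)).restrictScalars ℂ : Submodule ℂ AA) := by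
      rintro f ⟨⟨hfV, hfJ⟩, hfE⟩
      have h2 : f ∈ Ideal.span {E} := hfE
      rw [Ideal.mem_span_singleton] at h2
      obtain ⟨g, rfl⟩ := h2
      refine ⟨g, ⟨mem_V_of_mul hE0 hfV, ?_⟩, rfl⟩
      have h3 : E * g ∈ JJ Z κ := hfJ
      show g ∈ JJ Z (res κ E)
      rw [mem_JJ] at h3 ⊢
      intro z hz
      exact (hRES (κ z) z E g (hκ z)).1 (h3 z hz)
    exact le_trans (Submodule.finrank_mono h1) (Submodule.finrank_map_le _ _)
  have hS' : hd (JJ Z κ) i j ≤ finrank ℂ ((V i j ⊓ (JJ Z κ).restrictScalars ℂ) ⊓ (Ideal.span {E}).restrictScalars ℂ : Submodule ℂ AA) +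
      (ip i j E + 1 - lam Z κ E) := hS
  omega

end

end Pool.Agent.HFN
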